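import Pool.Agent.Helper89.HT.Name

/-!
# Boxes in three coordinates from generic compactness of the full tree
-/

set_option autoImplicit false

open Cardinal Set Helper2.HB Pool.Agent.Helper58.HL Pool.Agent.Helper39.HL

namespace Pool.Agent.Helper89.HT

variable {κ : Cardinal.{0}}

theorem fils (hκ : κ.IsRegular) (hG : GenCompact κ (Node κ.ord.ToType)) : Fils κ := by
  intro I hI S
  have : NoMaxOrder κ.ord.ToType := Cardinal.noMaxOrder hκ.aleph0_le
  obtain ⟨F, h1, h2, h3, -, h5⟩ := exists_filter' hκ hG hI S univ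
    (fun a => by obtain ⟨b, hb⟩ := exists_gt a; exact ⟨b, mem_univ _, hb⟩)
  exact ⟨F, h1, h2, h3, h5⟩

theorem box2 (hκ : κ.IsRegular) (hG : GenCompact κ (Node κ.ord.ToType)) {ι : Type}
    (hι : #ι < κ) : Box2 κ (Node κ.ord.ToType) ι := by
  intro c a₀ a₁
  have hN := card_node_le' hκ hG
  obtain ⟨E₁, hF₁, hd₁⟩ := hG.exists_of_le (I := Node κ.ord.ToType × ι)
    (mul_le_kappa hκ hN hι.le) (fun z => {y | c z.1 y = z.2})
  obtain ⟨E₀, hF₀, hd₀⟩ := hG.exists_of_le (I := ι × Node κ.ord.ToType)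
    (mul_le_kappa hκ hι.le hN) (fun z => possible E₁ c z.1 z.2)
  have : Nonempty (Node κ.ord.ToType) := ⟨a₀⟩
  exact exists_boxes_of_decides hκ.aleph0_le (closed_node hκ)
    (closed_node hκ) (cone₀ := Ici) (cone₁ := Ici) (fun p p' h => Ici_subset_Ici.2 h)
    (fun p p' h => Ici_subset_Ici.2 h) hF₀ hF₁ hι c (fun x i => hd₁ (x, i))
    (fun i t => hd₀ (i, t)) a₀ a₁

theorem card_small_le (hκ : κ.IsRegular) (hG : GenCompact κ (Node κ.ord.ToType)) {N : Type}
    (hN : #N ≤ κ) : #{A : Set N // #A < κ} ≤ κ := by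
  classical
  have : NoMaxOrder κ.ord.ToType := Cardinal.noMaxOrder hκ.aleph0_le
  have h1 : #N ≤ #κ.ord.ToType := by rwa [Cardinal.mk_ord_toType]
  obtain ⟨φ⟩ := h1
  have hIic : ∀ ζ : κ.ord.ToType, #(Iic ζ) < κ := by
    intro ζ
    obtain ⟨ξ, hξ⟩ := exists_gt ζ
    exact lt_of_le_of_lt (Cardinal.mk_le_mk_of_subset fun x hx => lt_of_le_of_lt hx hξ)
      (Cardinal.mk_Iio_toType_ord_lt ξ)
  have hbd : ∀ A : {A : Set N // #A < κ}, ∃ B, ∀ x : A.1, φ x.1 ≤ B := fun A =>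
    exists_bound hκ A.2 (fun x : A.1 => φ x.1)
  choose B hB using hbd
  have h2 : #{A : Set N // #A < κ} ≤ #(Σ ζ : κ.ord.ToType, Set (Iic ζ)) := by
    refine Cardinal.mk_le_of_injective
      (f := fun A : {A : Set N // #A < κ} => (⟨B A, {η | ∃ x ∈ A.1, φ x = η.1}⟩ :
        Σ ζ : κ.ord.ToType, Set (Iic ζ))) ?_
    intro A A' hAA
    have key : ∀ z w : (Σ ζ : κ.ord.ToType, Set (Iic ζ)), z = w → ∀ (η : κ.ord.ToType)
        (h1 : η ≤ z.1) (h2 : η ≤ w.1), ((⟨η, h1⟩ : Iic z.1) ∈ z.2 ↔ (⟨η, h2⟩ : Iic w.1) ∈ w.2) := by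
      rintro z w rfl _ _ _; rfl
    have hsym : ∀ A A' : {A : Set N // #A < κ},
        ((⟨B A, {η | ∃ x ∈ A.1, φ x = η.1}⟩ : Σ ζ : κ.ord.ToType, Set (Iic ζ)) =
          ⟨B A', {η | ∃ x ∈ A'.1, φ x = η.1}⟩) → A.1 ⊆ A'.1 := by
      intro A A' h x hx
      have hBB : B A = B A' := congrArg Sigma.fst h
      have h3 := (key _ _ h (φ x) (hB A ⟨x, hx⟩) (hBB ▸ hB A ⟨x, hx⟩)).1 ⟨x, hx, rfl⟩
      obtain ⟨y, hy, hyx⟩ := h3
      rwa [← φ.injective hyx]
    exact Subtype.ext (Subset.antisymm (hsym A A' hAA) (hsym A' A hAA.symm))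
  refine h2.trans ?_
  rw [Cardinal.mk_sigma]
  refine (Cardinal.sum_le_sum _ (fun _ => κ) (fun ζ => (card_set_lt' hκ hG (hIic ζ)).le)).trans ?_
  rw [Cardinal.sum_const]
  simp only [Cardinal.lift_id, Cardinal.mk_ord_toType]
  rw [Cardinal.mul_eq_self hκ.aleph0_le]

/-- the pairing of nodes of the full tree -/
theorem exists_pairing (hκ : κ.IsRegular) : Nonempty (Pairing κ (Node κ.ord.ToType)) := by
  classical
  have : NoMaxOrder κ.ord.ToType := Cardinal.noMaxOrder hκ.aleph0_le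
  obtain ⟨b, hb⟩ := exists_least hκ
  have h1 : #κ.ord.ToType = #(κ.ord.ToType × κ.ord.ToType) := by
    rw [Cardinal.mk_prod]
    simp only [Cardinal.lift_id, Cardinal.mk_ord_toType]
    rw [Cardinal.mul_eq_self hκ.aleph0_le]
  obtain ⟨e⟩ := Cardinal.eq.1 h1
  refine ⟨⟨fun p => p.len, fun p p' h => h.1, ?_,
    fun p => nodeOf b hb (fun η => (e (p.val η)).1) p.len,
    fun p => nodeOf b hb (fun η => (e (p.val η)).2) p.len, ?_, ?_, ?_, ?_⟩⟩
  · intro ξ p
    obtain ⟨l, hl⟩ := exists_gt (max ξ p.len)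
    refine ⟨nodeOf b hb p.val l, ⟨((le_max_right _ _).trans_lt hl).le, fun η hη => ?_⟩,
      (le_max_left _ _).trans_lt hl⟩
    rw [nodeOf_val _ _ _ _ (hη.trans ((le_max_right _ _).trans_lt hl))]
  · intro p p' h
    refine ⟨h.1, fun η hη => ?_⟩
    have hη' : η < p.len := hη
    rw [nodeOf_val _ _ _ _ hη', nodeOf_val _ _ _ _ (hη'.trans_le h.1), h.2 η hη']
  · intro p p' h
    refine ⟨h.1, fun η hη => ?_⟩
    have hη' : η < p.len := hη
    rw [nodeOf_val _ _ _ _ hη', nodeOf_val _ _ _ _ (hη'.trans_le h.1), h.2 η hη']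
  · intro p p' h h'
    have hlen : p.len ≤ p'.len := h.1
    refine ⟨hlen, fun η hη => ?_⟩
    have h2 := h.2 η hη
    have h3 := h'.2 η hη
    rw [nodeOf_val _ _ _ _ hη, nodeOf_val _ _ _ _ (hη.trans_le hlen)] at h2 h3
    exact e.injective (Prod.ext h2 h3)
  · intro q r
    refine ⟨nodeOf b hb (fun η => e.symm (q.val η, r.val η)) (max q.len r.len),
      ⟨le_max_left _ _, fun η hη => ?_⟩, ⟨le_max_right _ _, fun η hη => ?_⟩⟩
    · have hη' : η < max q.len r.len := hη.trans_le (le_max_left _ _)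
      rw [nodeOf_val _ _ _ _ (show η < (nodeOf b hb (fun η => e.symm (q.val η, r.val η))
        (max q.len r.len)).len from hη'), nodeOf_val _ _ _ _ hη', Equiv.apply_symm_apply]
    · have hη' : η < max q.len r.len := hη.trans_le (le_max_right _ _)
      rw [nodeOf_val _ _ _ _ (show η < (nodeOf b hb (fun η => e.symm (q.val η, r.val η))
        (max q.len r.len)).len from hη'), nodeOf_val _ _ _ _ hη', Equiv.apply_symm_apply]

/-- **Boxes in three coordinates.** -/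
theorem exists_boxes3 (hκ : κ.IsRegular) (hG : GenCompact κ (Node κ.ord.ToType)) {ι : Type}
    (hι : #ι < κ) : Box3 κ (Node κ.ord.ToType) ι := by
  intro c a₀ a₁ a₂
  have hN := card_node_le' hκ hG
  obtain ⟨Q⟩ := exists_pairing hκ
  obtain ⟨E, hE, hEd⟩ := hG.exists_of_le
    (I := (Node κ.ord.ToType × Node κ.ord.ToType) × ι)
    (mul_le_kappa hκ (mul_le_kappa hκ hN hN) hι.le) (fun z => {y | c z.1.1 z.1.2 y = z.2})
  obtain ⟨Θ, h1, h2, h3⟩ := exists_name hκ (closed_node hκ) hN (card_small_le hκ hG hN) hG Q hι c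
    hE (fun x s i => hEd ((x, s), i))
  exact run hκ (closed_node hκ) hN hι (box2 hκ hG hι) (fils hκ hG) c hE Θ h1 h2 h3 a₀ a₁ a₂

end Pool.Agent.Helper89.HT
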