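import Pool.Agent.Helper89.HT.Run

/-!
# The name of colours on pairs of conditions
-/

set_option autoImplicit false

open Cardinal Set Pool.Agent.Helper58.HL Pool.Agent.Helper39.HL

namespace Pool.Agent.Helper89.HT

variable {κ : Cardinal.{0}}

/-- A length function and a pairing of conditions. -/
structure Pairing (κ : Cardinal.{0}) (N : Type) [Preorder N] where
  len : N → κ.ord.ToType
  len_mono : ∀ p p', p ≤ p' → len p ≤ len p'
  len_cof : ∀ ξ p, ∃ p', p ≤ p' ∧ ξ < len p'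
  fst : N → N
  snd : N → N
  fst_mono : ∀ p p', p ≤ p' → fst p ≤ fst p'
  snd_mono : ∀ p p', p ≤ p' → snd p ≤ snd p'
  reflect : ∀ p p', fst p ≤ fst p' → snd p ≤ snd p' → p ≤ p'
  cof : ∀ q r, ∃ p, q ≤ fst p ∧ r ≤ snd p

/-- the sets that the filter on the second coordinate has to decide -/
def PSet {N ι : Type} [Preorder N] (c : N → N → N → ι) (E : N → Filter N) (A : Set N) (r : N)
    (i : ι) : Set N :=
  {s | ∃ r', r ≤ r' ∧ ∀ x ∈ A, {z | c x s z = i} ∈ E r'}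

/-- **The name.** -/
theorem exists_name (hκ : κ.IsRegular) {N : Type} [Preorder N] (hN : Closed κ N) (hcard : #N ≤ κ)
    (hsub : #{A : Set N // #A < κ} ≤ κ) (hG : GenCompact κ N) (Q : Pairing κ N)
    {ι : Type} (hι : #ι < κ) (c : N → N → N → ι)
    {E : N → Filter N} (hE : IsGenFil κ Ici E) (hEd : ∀ x s i, Decides E {z | c x s z = i}) :
    ∃ Θ : N → N → N → ι → Prop,
      (∀ q r x i q' r', q ≤ q' → r ≤ r' → Θ q r x i → Θ q' r' x i) ∧
      (∀ q r x, ∃ q' r' i, q ≤ q' ∧ r ≤ r' ∧ Θ q' r' x i) ∧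
      (∀ (q : N) (L M : Type), #L < κ → #M < κ → ∀ (r : L → N) (x : M → N) (i : ι),
        (∀ k m, Θ q (r k) (x m) i) → ∃ s, q ≤ s ∧ ∃ r' : L → N, (∀ k, r k ≤ r' k) ∧
          ∀ k m, {z | c (x m) s z = i} ∈ E (r' k)) := by
  classical
  have hIio : ∀ ζ : κ.ord.ToType, #(Iio ζ) < κ := fun ζ => Cardinal.mk_Iio_toType_ord_lt ζ
  -- the filter on the second coordinate
  have hIY : #(({A : Set N // #A < κ} × N) × ι) ≤ κ :=
    mul_le_kappa hκ (mul_le_kappa hκ hsub hcard) hι.le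
  let P : ({A : Set N // #A < κ} × N) × ι → Set N := fun a => PSet c E a.1.1.1 a.1.2 a.2
  obtain ⟨EY, hY, hYd⟩ := hG.exists_of_le hIY P
  have hψ : #(({A : Set N // #A < κ} × N) × ι) ≤ #κ.ord.ToType := by
    rwa [Cardinal.mk_ord_toType]
  obtain ⟨ψ⟩ := hψ
  have hχ : #(N × ι) ≤ #κ.ord.ToType := by
    rw [Cardinal.mk_ord_toType]; exact mul_le_kappa hκ hcard hι.le
  obtain ⟨χ⟩ := hχ
  -- the point `s u`
  have hs : ∀ u : N, ∃ s, u ≤ s ∧ ∀ a, ψ a < Q.len u → ((P a ∈ EY u → s ∈ P a) ∧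
      ((P a)ᶜ ∈ EY u → s ∉ P a)) := by
    intro u
    let T : {a // ψ a < Q.len u} → Set N := fun a =>
      if P a.1 ∈ EY u then P a.1 else if (P a.1)ᶜ ∈ EY u then (P a.1)ᶜ else univ
    have hT : ∀ a, T a ∈ EY u := by
      intro a
      simp only [T]
      split_ifs with h1 h2
      · exact h1
      · exact h2
      · exact Filter.univ_mem
    have hlt : #{a // ψ a < Q.len u} < κ := by
      refine lt_of_le_of_lt (Cardinal.mk_le_of_injective
        (f := fun a : {a // ψ a < Q.len u} => (⟨ψ a.1, a.2⟩ : Iio (Q.len u))) ?_)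
        (hIio (Q.len u))
      intro a b hab
      exact Subtype.ext (ψ.injective (congrArg Subtype.val hab))
    have := hY.complete u
    have h1 : (⋂ a, T a) ∈ EY u := (Filter.cardinal_iInter_mem hlt).2 hT
    have := hY.ne u
    obtain ⟨s, hs1, hs2⟩ := Filter.nonempty_of_mem (Filter.inter_mem h1 (hY.cone_mem u))
    refine ⟨s, hs2, fun a ha => ?_⟩
    have h2 := mem_iInter.1 hs1 ⟨a, ha⟩
    simp only [T] at h2
    constructor
    · intro h3
      rwa [if_pos h3] at h2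
    · intro h3
      have h4 : P a ∉ EY u := by
        intro h4
        obtain ⟨w, hw1, hw2⟩ := Filter.nonempty_of_mem (Filter.inter_mem h3 h4)
        exact hw1 hw2
      rw [if_neg h4, if_pos h3] at h2
      exact h2
  choose s hs1 hs2 using hs
  -- the condition `ρ p`
  have hρ : ∀ p : N, ∃ r, Q.snd p ≤ r ∧ ∀ w : N × ι, χ w < Q.len (Q.fst p) →
      ({z | c w.1 (s (Q.fst p)) z = w.2} ∈ E r ∨ {z | c w.1 (s (Q.fst p)) z = w.2}ᶜ ∈ E r) := by
    intro p
    have hlt : #{w : N × ι // χ w < Q.len (Q.fst p)} < κ := by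
      refine lt_of_le_of_lt (Cardinal.mk_le_of_injective
        (f := fun a : {w : N × ι // χ w < Q.len (Q.fst p)} =>
          (⟨χ a.1, a.2⟩ : Iio (Q.len (Q.fst p)))) ?_) (hIio _)
      intro a b hab
      exact Subtype.ext (χ.injective (congrArg Subtype.val hab))
    obtain ⟨r, hr, hall⟩ := hN.meet hκ.aleph0_le hlt
      (fun w r => {z | c w.1.1 (s (Q.fst p)) z = w.1.2} ∈ E r ∨
        {z | c w.1.1 (s (Q.fst p)) z = w.1.2}ᶜ ∈ E r)
      (by
        rintro w a b hab (h | h)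
        · exact Or.inl (hE.mono _ _ hab h)
        · exact Or.inr (hE.mono _ _ hab h))
      (Q.snd p) (fun w r _ => hEd _ _ _ r)
    exact ⟨r, hr, fun w hw => hall ⟨w, hw⟩⟩
  choose ρ hρ1 hρ2 using hρ
  -- the filter on pairs
  let D : N × ι → Set N := fun w => {p | {z | c w.1 (s (Q.fst p)) z = w.2} ∈ E (ρ p)}
  obtain ⟨EQ, hQ, hQd⟩ := hG.exists_of_le (mul_le_kappa hκ hcard hι.le) D
  have hext : ∀ ξ p, ∃ p', p ≤ p' ∧ ξ < Q.len (Q.fst p') := by
    intro ξ p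
    obtain ⟨q, hq1, hq2⟩ := Q.len_cof ξ (Q.fst p)
    obtain ⟨p', h1, h2⟩ := Q.cof q (Q.snd p)
    exact ⟨p', Q.reflect _ _ (hq1.trans h1) h2, hq2.trans_le (Q.len_mono _ _ h1)⟩
  refine ⟨fun q r x i => ∃ p, Q.fst p ≤ q ∧ Q.snd p ≤ r ∧ D (x, i) ∈ EQ p, ?_, ?_, ?_⟩
  · rintro q r x i q' r' hq hr ⟨p, h1, h2, h3⟩
    exact ⟨p, h1.trans hq, h2.trans hr, h3⟩
  · intro q r x
    obtain ⟨p₀, hp1, hp2⟩ := Q.cof q r
    obtain ⟨ξ, hξ⟩ := exists_bound hκ hι (fun i => χ (x, i))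
    obtain ⟨p₁, hp₁, hξ₁⟩ := hext ξ p₀
    have hcov : ∀ p, p₁ ≤ p → ∃ i, p ∈ D (x, i) := by
      intro p hp
      by_contra hcon
      push Not at hcon
      have h1 : ∀ i, {z | c x (s (Q.fst p)) z = i}ᶜ ∈ E (ρ p) := by
        intro i
        have h2 := hρ2 p (x, i) ((hξ i).trans_lt (hξ₁.trans_le (Q.len_mono _ _
          (Q.fst_mono _ _ hp))))
        rcases h2 with h2 | h2
        · exact absurd h2 (hcon i)
        · exact h2
      have := hE.complete (ρ p)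
      have h2 : (⋂ i, {z | c x (s (Q.fst p)) z = i}ᶜ) ∈ E (ρ p) :=
        (Filter.cardinal_iInter_mem hι).2 h1
      have := hE.ne (ρ p)
      obtain ⟨z, hz⟩ := Filter.nonempty_of_mem h2
      exact mem_iInter.1 hz (c x (s (Q.fst p)) z) rfl
    have hex : ∃ p', p₁ ≤ p' ∧ ∃ i, D (x, i) ∈ EQ p' := by
      by_contra hcon
      push Not at hcon
      obtain ⟨p₂, hp₂, hall⟩ := hN.meet hκ.aleph0_le hι (fun i p => (D (x, i))ᶜ ∈ EQ p)
        (fun i a b hab h => hQ.mono _ _ hab h) p₁ (by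
          intro i a ha
          obtain ⟨b, hb, h | h⟩ := hQd (x, i) a
          · exact absurd h (hcon b (ha.trans hb) i)
          · exact ⟨b, hb, h⟩)
      have := hQ.complete p₂
      have h2 : (⋂ i, (D (x, i))ᶜ) ∈ EQ p₂ := (Filter.cardinal_iInter_mem hι).2 hall
      have := hQ.ne p₂
      obtain ⟨p, hpa, hpb⟩ := Filter.nonempty_of_mem (Filter.inter_mem h2 (hQ.cone_mem p₂))
      obtain ⟨i, hi⟩ := hcov p (hp₂.trans hpb)
      exact mem_iInter.1 hpa i hi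
    obtain ⟨p', hp', i, hi⟩ := hex
    exact ⟨Q.fst p', Q.snd p', i, hp1.trans (Q.fst_mono _ _ (hp₁.trans hp')),
      hp2.trans (Q.snd_mono _ _ (hp₁.trans hp')), p', le_rfl, le_rfl, hi⟩
  · intro q L M hL hM r x i h
    have hA : #(range x) < κ := lt_of_le_of_lt Cardinal.mk_range_le hM
    let A : {A : Set N // #A < κ} := ⟨range x, hA⟩
    have claim : ∀ k, ∀ q', q ≤ q' → ∃ q'', q' ≤ q'' ∧ P ((A, r k), i) ∈ EY q'' := by
      intro k q' hq'
      choose pm hpm1 hpm2 hpm3 using h k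
      obtain ⟨q₁, hq₁, hdec⟩ := hYd ((A, r k), i) q'
      obtain ⟨ξ₁, hξ₁⟩ := exists_bound hκ hM (fun m => χ (x m, i))
      obtain ⟨q₂, hq₂, hξ₂⟩ := Q.len_cof (max ξ₁ (ψ ((A, r k), i))) q₁
      obtain ⟨p, hp1, hp2⟩ := Q.cof q₂ (r k)
      have := hQ.complete p
      have h1 : (⋂ m, D (x m, i)) ∈ EQ p := by
        refine (Filter.cardinal_iInter_mem hM).2 fun m => hQ.mono _ _ ?_ (hpm3 m)
        exact Q.reflect _ _ ((hpm1 m).trans (hq'.trans (hq₁.trans (hq₂.trans hp1))))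
          ((hpm2 m).trans hp2)
      have := hQ.ne p
      obtain ⟨w, hw1, hw2⟩ := Filter.nonempty_of_mem (Filter.inter_mem h1 (hQ.cone_mem p))
      have hu : q₂ ≤ Q.fst w := hp1.trans (Q.fst_mono _ _ hw2)
      have hmem : s (Q.fst w) ∈ P ((A, r k), i) := by
        refine ⟨ρ w, hp2.trans ((Q.snd_mono _ _ hw2).trans (hρ1 w)), ?_⟩
        rintro _ ⟨m, rfl⟩
        exact mem_iInter.1 hw1 m
      refine ⟨q₁, hq₁, hdec.resolve_right fun hno => ?_⟩
      have h2 := (hs2 (Q.fst w) ((A, r k), i) (((le_max_right _ _).trans_lt hξ₂).trans_le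
        (Q.len_mono _ _ hu))).2 (hY.mono _ _ (hq₂.trans hu) hno)
      exact h2 hmem
    obtain ⟨q', hq', hall⟩ := hN.meet hκ.aleph0_le hL (fun k p => P ((A, r k), i) ∈ EY p)
      (fun k a b hab h => hY.mono _ _ hab h) q (fun k p hp => claim k p hp)
    have := hY.complete q'
    have h1 : (⋂ k, P ((A, r k), i)) ∈ EY q' := (Filter.cardinal_iInter_mem hL).2 hall
    have := hY.ne q'
    obtain ⟨t, ht1, ht2⟩ := Filter.nonempty_of_mem (Filter.inter_mem h1 (hY.cone_mem q'))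
    have h2 : ∀ k, ∃ r', r k ≤ r' ∧ ∀ y ∈ range x, {z | c y t z = i} ∈ E r' :=
      fun k => mem_iInter.1 ht1 k
    choose r' hr'1 hr'2 using h2
    exact ⟨t, hq'.trans ht2, r', hr'1, fun k m => hr'2 k (x m) ⟨m, rfl⟩⟩

end Pool.Agent.Helper89.HT
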