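import Pool.Agent.Helper39.HL.Levels

/-!
# Boxes with one point in the first coordinate

`N` is a preorder in which chains of size less than `κ` are bounded. From boxes for all colourings
of `N × N` and filters on `κ` that decide `κ` given sets we get boxes `{x} × Y × Z` for all
colourings of `N × N × N`, and the same for names of colours.
-/

set_option autoImplicit false

open Cardinal Set Pool.Agent.Helper58.HL Pool.Agent.Helper39.HL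

namespace Pool.Agent.Helper89.HT

variable {κ : Cardinal.{0}}

/-- boxes for all colourings of pairs -/
def Box2 (κ : Cardinal.{0}) (N : Type) [Preorder N] (ι : Type) : Prop :=
  ∀ (c : N → N → ι) (a₀ a₁ : N), ∃ s, a₀ ≤ s ∧ ∃ t, a₁ ≤ t ∧ ∃ i : ι,
    ∀ (M J : Type), #M < κ → #J < κ → ∀ (p : M → N) (q : J → N), (∀ m, s ≤ p m) →
      (∀ j, t ≤ q j) → ∃ (x : M → N) (y : J → N), (∀ m, p m ≤ x m) ∧ (∀ j, q j ≤ y j) ∧
        ∀ m j, c (x m) (y j) = i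

/-- filters deciding `κ` sets -/
def Fils (κ : Cardinal.{0}) : Prop :=
  ∀ (I : Type), #I ≤ κ → ∀ S : I → Set κ.ord.ToType, ∃ F : Filter κ.ord.ToType,
    F.NeBot ∧ CardinalInterFilter F κ ∧ (∀ a, Ioi a ∈ F) ∧ ∀ a, S a ∈ F ∨ (S a)ᶜ ∈ F

theorem mul_le_kappa (hκ : κ.IsRegular) {A B : Type} (hA : #A ≤ κ) (hB : #B ≤ κ) :
    #(A × B) ≤ κ := by
  rw [Cardinal.mk_prod]
  simp only [Cardinal.lift_id]
  exact (mul_le_mul' hA hB).trans (Cardinal.mul_eq_self hκ.aleph0_le).le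

theorem mul_lt_kappa (hκ : κ.IsRegular) {A B : Type} (hA : #A < κ) (hB : #B < κ) :
    #(A × B) < κ := by
  rw [Cardinal.mk_prod]
  simp only [Cardinal.lift_id]
  exact Cardinal.mul_lt_of_lt hκ.aleph0_le hA hB

/-- no box `{x} × Y × Z` of colour `i` above `p` and the given families -/
def Bad {N ι : Type} [Preorder N] (κ : Cardinal.{0}) (F : N → N → N → ι) (p : N)
    (τ : (N × N) × ι) : Prop :=
  ∃ (J L : Type) (_ : #J < κ) (_ : #L < κ) (q : J → N) (r : L → N), (∀ j, τ.1.1 ≤ q j) ∧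
    (∀ k, τ.1.2 ≤ r k) ∧ ∀ x, p ≤ x → ∀ (a : J → N) (b : L → N), (∀ j, q j ≤ a j) →
      (∀ k, r k ≤ b k) → ∃ j k, F x (a j) (b k) ≠ τ.2

/-- **One point in the first coordinate.** -/
theorem box1 (hκ : κ.IsRegular) {N : Type} [Preorder N] (hN : Closed κ N) (hcard : #N ≤ κ)
    {ι : Type} (hι : #ι < κ) (hB : Box2 κ N ι) (hF : Fils κ) (F : N → N → N → ι)
    (a₀ a₁ a₂ : N) : ∃ t₀, a₀ ≤ t₀ ∧ ∃ t₁, a₁ ≤ t₁ ∧ ∃ t₂, a₂ ≤ t₂ ∧ ∃ i : ι, ∀ p, t₀ ≤ p →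
      ¬ Bad κ F p ((t₁, t₂), i) := by
  classical
  have : NoMaxOrder κ.ord.ToType := Cardinal.noMaxOrder hκ.aleph0_le
  by_contra hcon
  push Not at hcon
  have hI : #((N × N) × ι) ≤ #κ.ord.ToType := by
    rw [Cardinal.mk_ord_toType]
    exact mul_le_kappa hκ (mul_le_kappa hκ hcard hcard) hι.le
  obtain ⟨φ⟩ := hI
  obtain ⟨g, hg⟩ := closed_seq hκ.aleph0_le hN (ι := κ.ord.ToType)
    (fun ζ => Cardinal.mk_Iio_toType_ord_lt ζ)
    (fun ζ p => ∀ τ : (N × N) × ι, φ τ = ζ → a₁ ≤ τ.1.1 → a₂ ≤ τ.1.2 → Bad κ F p τ) a₀ (by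
      intro ζ p hp
      by_cases h : ∃ τ : (N × N) × ι, φ τ = ζ ∧ a₁ ≤ τ.1.1 ∧ a₂ ≤ τ.1.2
      · obtain ⟨τ, h1, h2, h3⟩ := h
        obtain ⟨p', hp', hbad⟩ := hcon p hp τ.1.1 h2 τ.1.2 h3 τ.2
        refine ⟨p', hp', fun τ' h4 _ _ => ?_⟩
        have h5 : τ' = τ := φ.injective (h4.trans h1.symm)
        rw [h5]
        exact hbad
      · exact ⟨p, le_rfl, fun τ h1 h2 h3 => absurd ⟨τ, h1, h2, h3⟩ h⟩)
  obtain ⟨𝓕, hne, hcomp, htail, hdec⟩ := hF ((N × N) × ι)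
    (mul_le_kappa hκ (mul_le_kappa hκ hcard hcard) hι.le)
    (fun z => {ζ | F (g ζ) z.1.1 z.1.2 = z.2})
  have hlim : ∀ a b : N, ∃ i : ι, {ζ | F (g ζ) a b = i} ∈ 𝓕 := by
    intro a b
    by_contra hno
    push Not at hno
    have h1 : (⋂ i : ι, {ζ | F (g ζ) a b = i}ᶜ) ∈ 𝓕 :=
      (Filter.cardinal_iInter_mem hι).2 (fun i => (hdec ((a, b), i)).resolve_left (hno i))
    obtain ⟨ζ, hζ⟩ := Filter.nonempty_of_mem h1
    exact mem_iInter.1 hζ (F (g ζ) a b) rfl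
  choose c' hc' using hlim
  obtain ⟨s, hs, t, ht, i, hi⟩ := hB c' a₁ a₂
  obtain ⟨J, L, hJ, hL, q, r, hq, hr, hbad⟩ := (hg (φ ((s, t), i))).2.2 ((s, t), i) rfl hs ht
  obtain ⟨a, b, ha, hb, hab⟩ := hi J L hJ hL q r hq hr
  have h1 : (⋂ z : J × L, {ζ | F (g ζ) (a z.1) (b z.2) = i}) ∈ 𝓕 := by
    refine (Filter.cardinal_iInter_mem (mul_lt_kappa hκ hJ hL)).2 fun z => ?_
    have := hc' (a z.1) (b z.2)
    rwa [hab z.1 z.2] at this
  obtain ⟨ζ, hζ, hlt⟩ := Filter.nonempty_of_mem (Filter.inter_mem h1 (htail (φ ((s, t), i))))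
  obtain ⟨j, k, hjk⟩ := hbad (g ζ) ((hg ζ).1 _ hlt) a b ha hb
  exact hjk (mem_iInter.1 hζ (j, k))

/-- **The same for names of colours**: `Θ q r x i` means that the pair `(q, r)` of conditions
decides the colour of `x` to be `i`. -/
theorem star (hκ : κ.IsRegular) {N : Type} [Preorder N] (hN : Closed κ N) (hcard : #N ≤ κ)
    {ι : Type} (hι : #ι < κ) (hB : Box2 κ N ι) (hF : Fils κ) (Θ : N → N → N → ι → Prop)
    (hmono : ∀ q r x i q' r', q ≤ q' → r ≤ r' → Θ q r x i → Θ q' r' x i)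
    (hdec : ∀ q r x, ∃ q' r' i, q ≤ q' ∧ r ≤ r' ∧ Θ q' r' x i) (a₀ a₁ a₂ : N) :
    ∃ t₀, a₀ ≤ t₀ ∧ ∃ t₁, a₁ ≤ t₁ ∧ ∃ t₂, a₂ ≤ t₂ ∧ ∃ i : ι, ∀ p, t₀ ≤ p →
      ∀ (J L : Type), #J < κ → #L < κ → ∀ (q : J → N) (r : L → N), (∀ j, t₁ ≤ q j) →
        (∀ k, t₂ ≤ r k) → ∃ x, p ≤ x ∧ ∃ (q' : J → N) (r' : L → N), (∀ j, q j ≤ q' j) ∧
          (∀ k, r k ≤ r' k) ∧ ∀ j k, Θ (q' j) (r' k) x i := by
  classical
  have hI : #((N × N) × N) ≤ #κ.ord.ToType := by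
    rw [Cardinal.mk_ord_toType]
    exact mul_le_kappa hκ (mul_le_kappa hκ hcard hcard) hcard
  obtain ⟨φ⟩ := hI
  obtain ⟨g, hg⟩ := closed_seq hκ.aleph0_le (P := (N → N) × (N → N))
    ((hN.pi (J := N)).prod (hN.pi (J := N))) (ι := κ.ord.ToType)
    (fun ζ => Cardinal.mk_Iio_toType_ord_lt ζ)
    (fun ζ u => ∀ z : (N × N) × N, φ z = ζ → ∃ i, Θ (u.1 z.1.1) (u.2 z.1.2) z.2 i)
    ((id, id) : (N → N) × (N → N)) (by
      intro ζ u hu
      by_cases h : ∃ z : (N × N) × N, φ z = ζ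
      · obtain ⟨z, hz⟩ := h
        obtain ⟨q', r', i, h1, h2, h3⟩ := hdec (u.1 z.1.1) (u.2 z.1.2) z.2
        refine ⟨(Function.update u.1 z.1.1 q', Function.update u.2 z.1.2 r'), ⟨?_, ?_⟩, ?_⟩
        · intro n
          by_cases hn : n = z.1.1
          · subst hn; simpa using h1
          · simp [Function.update_of_ne hn]
        · intro n
          by_cases hn : n = z.1.2
          · subst hn; simpa using h2
          · simp [Function.update_of_ne hn]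
        · intro z' hz'
          have h5 : z' = z := φ.injective (hz'.trans hz.symm)
          subst h5
          exact ⟨i, by simpa using h3⟩
      · exact ⟨u, le_rfl, fun z hz => absurd ⟨z, hz⟩ h⟩)
  have hcol : ∀ x q r, ∃ i, Θ ((g (φ ((q, r), x))).1 q) ((g (φ ((q, r), x))).2 r) x i :=
    fun x q r => (hg (φ ((q, r), x))).2.2 ((q, r), x) rfl
  choose F hFc using hcol
  obtain ⟨t₀, h₀, t₁, h₁, t₂, h₂, i, hi⟩ := box1 hκ hN hcard hι hB hF F a₀ a₁ a₂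
  refine ⟨t₀, h₀, t₁, h₁, t₂, h₂, i, fun p hp J L hJ hL q r hq hr => ?_⟩
  have h3 := hi p hp
  unfold Bad at h3
  push Not at h3
  obtain ⟨x, hx, a, b, ha, hb, hab⟩ := h3 J L hJ hL q r hq hr
  obtain ⟨l, hl⟩ := exists_bound hκ (mul_lt_kappa hκ hJ hL)
    (fun z : J × L => φ ((a z.1, b z.2), x))
  have hmonog : ∀ ζ ζ', ζ ≤ ζ' → g ζ ≤ g ζ' := by
    intro ζ ζ' h
    rcases eq_or_lt_of_le h with h' | h'
    · rw [h']
    · exact (hg ζ').1 ζ h'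
  refine ⟨x, hx, fun j => (g l).1 (a j), fun k => (g l).2 (b k),
    fun j => (ha j).trans ((hg l).2.1.1 (a j)), fun k => (hb k).trans ((hg l).2.1.2 (b k)),
    fun j k => ?_⟩
  have h4 := hFc x (a j) (b k)
  rw [hab j k] at h4
  have h5 := hmonog _ _ (hl (j, k))
  exact hmono _ _ _ _ _ _ (h5.1 (a j)) (h5.2 (b k)) h4

end Pool.Agent.Helper89.HT
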