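import Pool.Agent.Helper89.HT.One

/-!
# Boxes in three coordinates from a name of colours on pairs of conditions
-/

set_option autoImplicit false

open Cardinal Set Pool.Agent.Helper58.HL Pool.Agent.Helper39.HL

namespace Pool.Agent.Helper89.HT

variable {κ : Cardinal.{0}}

/-- boxes for all colourings of triples -/
def Box3 (κ : Cardinal.{0}) (N : Type) [Preorder N] (ι : Type) : Prop :=
  ∀ (c : N → N → N → ι) (a₀ a₁ a₂ : N), ∃ s₀, a₀ ≤ s₀ ∧ ∃ s₁, a₁ ≤ s₁ ∧ ∃ s₂, a₂ ≤ s₂ ∧ ∃ i : ι,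
    ∀ (M J L : Type), #M < κ → #J < κ → #L < κ → ∀ (p : M → N) (q : J → N) (r : L → N),
      (∀ m, s₀ ≤ p m) → (∀ j, s₁ ≤ q j) → (∀ k, s₂ ≤ r k) →
        ∃ (x : M → N) (y : J → N) (z : L → N), (∀ m, p m ≤ x m) ∧ (∀ j, q j ≤ y j) ∧
          (∀ k, r k ≤ z k) ∧ ∀ m j k, c (x m) (y j) (z k) = i

/-- **The run.** -/
theorem run (hκ : κ.IsRegular) {N : Type} [Preorder N] (hN : Closed κ N) (hcard : #N ≤ κ)
    {ι : Type} (hι : #ι < κ) (hB : Box2 κ N ι) (hF : Fils κ) (c : N → N → N → ι)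
    {E : N → Filter N} (hE : IsGenFil κ Ici E) (Θ : N → N → N → ι → Prop)
    (hmono : ∀ q r x i q' r', q ≤ q' → r ≤ r' → Θ q r x i → Θ q' r' x i)
    (hdec : ∀ q r x, ∃ q' r' i, q ≤ q' ∧ r ≤ r' ∧ Θ q' r' x i)
    (hstar : ∀ (q : N) (L M : Type), #L < κ → #M < κ → ∀ (r : L → N) (x : M → N) (i : ι),
      (∀ k m, Θ q (r k) (x m) i) → ∃ s, q ≤ s ∧ ∃ r' : L → N, (∀ k, r k ≤ r' k) ∧
        ∀ k m, {z | c (x m) s z = i} ∈ E (r' k))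
    (a₀ a₁ a₂ : N) : ∃ s₀, a₀ ≤ s₀ ∧ ∃ s₁, a₁ ≤ s₁ ∧ ∃ s₂, a₂ ≤ s₂ ∧ ∃ i : ι,
    ∀ (M J L : Type), #M < κ → #J < κ → #L < κ → ∀ (p : M → N) (q : J → N) (r : L → N),
      (∀ m, s₀ ≤ p m) → (∀ j, s₁ ≤ q j) → (∀ k, s₂ ≤ r k) →
        ∃ (x : M → N) (y : J → N) (z : L → N), (∀ m, p m ≤ x m) ∧ (∀ j, q j ≤ y j) ∧
          (∀ k, r k ≤ z k) ∧ ∀ m j k, c (x m) (y j) (z k) = i := by
  classical
  obtain ⟨t₀, h₀, t₁, h₁, t₂, h₂, i, hi⟩ := star hκ hN hcard hι hB hF Θ hmono hdec a₀ a₁ a₂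
  refine ⟨t₀, h₀, t₁, h₁, t₂, h₂, i, fun M J L hM hJ hL p q r hp hq hr => ?_⟩
  -- first coordinate
  obtain ⟨⟨q', r'⟩, ⟨hq', hr'⟩, hall⟩ := ((hN.pi (J := J)).prod (hN.pi (J := L))).meet
    hκ.aleph0_le hM (fun m (u : (J → N) × (L → N)) => ∃ x, p m ≤ x ∧
      ∀ j k, Θ (u.1 j) (u.2 k) x i)
    (by
      rintro m ⟨f, g⟩ ⟨f', g'⟩ ⟨hf, hg⟩ ⟨x, hx, h⟩
      exact ⟨x, hx, fun j k => hmono _ _ _ _ _ _ (hf j) (hg k) (h j k)⟩)
    (q, r)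
    (by
      rintro m ⟨f, g⟩ ⟨hf, hg⟩
      obtain ⟨x, hx, f', g', hf', hg', h⟩ := hi (p m) (hp m) J L hJ hL f g
        (fun j => (hq j).trans (hf j)) (fun k => (hr k).trans (hg k))
      exact ⟨(f', g'), ⟨hf', hg'⟩, x, hx, h⟩)
  choose x hx hΘ using hall
  -- second coordinate
  obtain ⟨r'', hr'', hall⟩ := (hN.pi (J := L)).meet hκ.aleph0_le hJ
    (fun j (g : L → N) => ∃ s, q' j ≤ s ∧ ∀ k m, {z | c (x m) s z = i} ∈ E (g k))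
    (by
      rintro j g g' hg ⟨s, hs, h⟩
      exact ⟨s, hs, fun k m => hE.mono _ _ (hg k) (h k m)⟩)
    r'
    (by
      intro j g hg
      obtain ⟨s, hs, g', hg', h⟩ := hstar (q' j) L M hL hM g x i
        (fun k m => hmono _ _ _ _ _ _ le_rfl (hg k) (hΘ m j k))
      exact ⟨g', hg', s, hs, h⟩)
  choose y hy hyE using hall
  -- third coordinate
  have hz : ∀ k, ∃ z, r'' k ≤ z ∧ ∀ m j, c (x m) (y j) z = i := by
    intro k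
    have := hE.complete (r'' k)
    have h1 : (⋂ w : M × J, {z | c (x w.1) (y w.2) z = i}) ∈ E (r'' k) :=
      (Filter.cardinal_iInter_mem (mul_lt_kappa hκ hM hJ)).2 (fun w => hyE w.2 k w.1)
    have := hE.ne (r'' k)
    obtain ⟨z, hz1, hz2⟩ := Filter.nonempty_of_mem (Filter.inter_mem h1 (hE.cone_mem (r'' k)))
    exact ⟨z, hz2, fun m j => mem_iInter.1 hz1 (m, j)⟩
  choose z hz1 hz2 using hz
  exact ⟨x, y, z, hx, fun j => (hq' j).trans (hy j),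
    fun k => (hr' k).trans ((hr'' k).trans (hz1 k)), fun m j k => hz2 k m j⟩

end Pool.Agent.Helper89.HT
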